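import Pool.Agent.Helper60.SB.Defs3

open Finset MeasureTheory
open scoped ENNReal Real

namespace Pool.Agent.Helper1.SB

open Pool.Agent.Helper60.SB

lemma isProb_tor1' : IsProbabilityMeasure tor1 := by
  constructor
  unfold tor1
  rw [Measure.smul_apply, Measure.restrict_apply_univ, Real.volume_Ico, sub_zero, smul_eq_mul]
  exact ENNReal.inv_mul_cancel (by simp [Real.pi_pos]) ENNReal.ofReal_ne_top

lemma isProb_tor' (d : ℕ) : IsProbabilityMeasure (tor d) := by
  have := isProb_tor1'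
  unfold tor
  infer_instance

/-- the `L_{2b}` norm of the polynomial with coefficients `μ̄(k) ζ(k)` as a function of `ζ` -/
noncomputable def qp {d : ℕ} (Q : Finset (Fin d → ℤ)) (μ : (Fin d → ℤ) → ℂ) (b : ℕ)
    (z : Q × Bool → ℝ) : ℝ :=
  (eLpNorm (fun x => ∑ k : Q, (starRingEnd ℂ) (μ k) * cco z k * ex (k : Fin d → ℤ) x)
    ((2 * b : ℕ) : ℝ≥0∞) (tor d)).toReal

lemma gexp {ι : Type*} [Fintype ι] (a : ι → ℝ) :
    Integrable (fun z : ι → ℝ => Real.exp (∑ i, a i * z i)) (gau ι) ∧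
      ∫ z, Real.exp (∑ i, a i * z i) ∂(gau ι) = Real.exp ((∑ i, a i ^ 2) / 2) := by
  have h1 : (fun z : ι → ℝ => Real.exp (∑ i, a i * z i)) = fun z => ∏ i, Real.exp (a i * z i) := by
    funext z
    exact Real.exp_sum _ _
  constructor
  · rw [h1]
    unfold gau
    exact Integrable.fintype_prod (𝕜 := ℝ) (f := fun i t => Real.exp (a i * t))
      (fun i => ProbabilityTheory.integrable_exp_mul_gaussianReal (a i))
  · rw [h1]
    unfold gau
    rw [integral_fintype_prod_eq_prod (𝕜 := ℝ) (fun i t => Real.exp (a i * t))]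
    have h2 : ∀ i, ∫ t, Real.exp (a i * t) ∂(ProbabilityTheory.gaussianReal 0 1) =
        Real.exp (a i ^ 2 / 2) := by
      intro i
      have h3 := congrFun (ProbabilityTheory.mgf_fun_id_gaussianReal (μ := 0) (v := 1)) (a i)
      simp only [ProbabilityTheory.mgf] at h3
      rw [h3]
      simp
    simp only [h2]
    rw [← Real.exp_sum, ← Finset.sum_div]

/-- even moments of a centred Gaussian linear form -/
lemma gmoment {ι : Type*} [Fintype ι] (a : ι → ℝ) (s : ℝ) (hs : 0 < s) (b : ℕ)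
    (ha : ∑ i, a i ^ 2 ≤ s ^ 2) :
    ∫⁻ z, ENNReal.ofReal (|∑ i, a i * z i| ^ (2 * b)) ∂(gau ι) ≤
      ENNReal.ofReal ((2 * b).factorial * (2 * Real.exp (1 / 2)) * s ^ (2 * b)) := by
  have hp : ∀ t : ℝ, |t| ^ (2 * b) ≤ (2 * b).factorial * (Real.exp t + Real.exp (-t)) := by
    intro t
    have h1 := Real.pow_div_factorial_le_exp |t| (abs_nonneg t) (2 * b)
    have hf : (0 : ℝ) < (2 * b).factorial := by exact_mod_cast Nat.factorial_pos _
    rw [div_le_iff₀ hf] at h1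
    have h2 : Real.exp |t| ≤ Real.exp t + Real.exp (-t) := by
      rcases abs_cases t with ⟨h, -⟩ | ⟨h, -⟩
      · rw [h]; linarith [Real.exp_pos (-t)]
      · rw [h]; linarith [Real.exp_pos t]
    calc |t| ^ (2 * b) ≤ Real.exp |t| * (2 * b).factorial := h1
      _ ≤ (Real.exp t + Real.exp (-t)) * (2 * b).factorial :=
          mul_le_mul_of_nonneg_right h2 hf.le
      _ = _ := mul_comm _ _
  have e1 := gexp (fun i => a i / s)
  have e2 := gexp (fun i => -(a i / s))
  have hsum : (∑ i, (a i / s) ^ 2) ≤ 1 := by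
    simp only [div_pow]
    rw [← Finset.sum_div, div_le_one (by positivity)]
    exact ha
  have hb1 : ∫ z : ι → ℝ, Real.exp (∑ i, a i / s * z i) ∂(gau ι) ≤ Real.exp (1 / 2) := by
    rw [e1.2]
    apply Real.exp_le_exp.mpr
    linarith
  have hb2 : ∫ z : ι → ℝ, Real.exp (∑ i, -(a i / s) * z i) ∂(gau ι) ≤ Real.exp (1 / 2) := by
    rw [e2.2]
    apply Real.exp_le_exp.mpr
    simp only [neg_sq]
    linarith
  set D : (ι → ℝ) → ℝ := fun z => (2 * b).factorial * s ^ (2 * b) *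
    (Real.exp (∑ i, a i / s * z i) + Real.exp (∑ i, -(a i / s) * z i)) with hD
  have hDint : Integrable D (gau ι) := (e1.1.add e2.1).const_mul _
  have hDnn : 0 ≤ᵐ[gau ι] D := Filter.Eventually.of_forall fun z => by
    simp only [hD, Pi.zero_apply]
    positivity
  have hle : ∀ z : ι → ℝ, |∑ i, a i * z i| ^ (2 * b) ≤ D z := by
    intro z
    have h1 := hp (∑ i, a i / s * z i)
    have h2 : ∑ i, a i / s * z i = (∑ i, a i * z i) / s := by
      rw [Finset.sum_div]
      exact Finset.sum_congr rfl fun i _ => by ring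
    have h3 : ∑ i, -(a i / s) * z i = -((∑ i, a i * z i) / s) := by
      rw [← h2, ← Finset.sum_neg_distrib]
      exact Finset.sum_congr rfl fun i _ => by ring
    simp only [hD]
    rw [h3]
    rw [h2] at h1 ⊢
    rw [abs_div, div_pow, abs_of_pos hs, div_le_iff₀ (by positivity)] at h1
    calc |∑ i, a i * z i| ^ (2 * b) ≤ _ := h1
      _ = _ := by ring
  calc ∫⁻ z, ENNReal.ofReal (|∑ i, a i * z i| ^ (2 * b)) ∂(gau ι)
      ≤ ∫⁻ z, ENNReal.ofReal (D z) ∂(gau ι) :=
        lintegral_mono fun z => ENNReal.ofReal_le_ofReal (hle z)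
    _ = ENNReal.ofReal (∫ z, D z ∂(gau ι)) := (ofReal_integral_eq_lintegral_ofReal hDint hDnn).symm
    _ ≤ _ := by
        apply ENNReal.ofReal_le_ofReal
        simp only [hD]
        rw [integral_const_mul, integral_add e1.1 e2.1]
        have hf : (0 : ℝ) < (2 * b).factorial := by exact_mod_cast Nat.factorial_pos _
        have : (0 : ℝ) < (2 * b).factorial * s ^ (2 * b) := by positivity
        nlinarith

section poly

variable {d : ℕ} (Q : Finset (Fin d → ℤ)) (μ : (Fin d → ℤ) → ℂ)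

/-- the random polynomial -/
noncomputable def GG (z : Q × Bool → ℝ) (x : Fin d → ℝ) : ℂ :=
  ∑ k : Q, (starRingEnd ℂ) (μ k) * cco z k * ex (k : Fin d → ℤ) x

lemma GG_re (z : Q × Bool → ℝ) (x : Fin d → ℝ) :
    (GG Q μ z x).re = ∑ i : Q × Bool, (if i.2 then
      -((starRingEnd ℂ) (μ i.1) * ex (i.1 : Fin d → ℤ) x).im else
      ((starRingEnd ℂ) (μ i.1) * ex (i.1 : Fin d → ℤ) x).re) * z i := by
  rw [Fintype.sum_prod_type, GG, Complex.re_sum]
  refine Finset.sum_congr rfl fun k _ => ?_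
  rw [Fintype.sum_bool]
  simp only [if_true, Bool.false_eq_true, if_false, cco]
  have : (starRingEnd ℂ) (μ k) * ((z (k, false) : ℂ) + (z (k, true) : ℂ) * Complex.I) *
      ex (k : Fin d → ℤ) x = ((starRingEnd ℂ) (μ k) * ex (k : Fin d → ℤ) x) *
      ((z (k, false) : ℂ) + (z (k, true) : ℂ) * Complex.I) := by ring
  rw [this, Complex.mul_re]
  simp
  ring

lemma GG_im (z : Q × Bool → ℝ) (x : Fin d → ℝ) :
    (GG Q μ z x).im = ∑ i : Q × Bool, (if i.2 then
      ((starRingEnd ℂ) (μ i.1) * ex (i.1 : Fin d → ℤ) x).re else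
      ((starRingEnd ℂ) (μ i.1) * ex (i.1 : Fin d → ℤ) x).im) * z i := by
  rw [Fintype.sum_prod_type, GG, Complex.im_sum]
  refine Finset.sum_congr rfl fun k _ => ?_
  rw [Fintype.sum_bool]
  simp only [if_true, Bool.false_eq_true, if_false, cco]
  have : (starRingEnd ℂ) (μ k) * ((z (k, false) : ℂ) + (z (k, true) : ℂ) * Complex.I) *
      ex (k : Fin d → ℤ) x = ((starRingEnd ℂ) (μ k) * ex (k : Fin d → ℤ) x) *
      ((z (k, false) : ℂ) + (z (k, true) : ℂ) * Complex.I) := by ring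
  rw [this, Complex.mul_im]
  simp

lemma norm_coef (x : Fin d → ℝ) (k : Fin d → ℤ) :
    ((starRingEnd ℂ) (μ k) * ex k x).re ^ 2 + ((starRingEnd ℂ) (μ k) * ex k x).im ^ 2 =
      ‖μ k‖ ^ 2 := by
  have h1 := Complex.sq_norm ((starRingEnd ℂ) (μ k) * ex k x)
  rw [Complex.normSq_apply] at h1
  rw [norm_mul, norm_ex, mul_one, RCLike.norm_conj] at h1
  rw [h1]
  ring

lemma sum_re (x : Fin d → ℝ) : ∑ i : Q × Bool, (if i.2 then
      -((starRingEnd ℂ) (μ i.1) * ex (i.1 : Fin d → ℤ) x).im else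
      ((starRingEnd ℂ) (μ i.1) * ex (i.1 : Fin d → ℤ) x).re) ^ 2 = ∑ k ∈ Q, ‖μ k‖ ^ 2 := by
  rw [Fintype.sum_prod_type, ← Finset.sum_coe_sort Q (fun k => ‖μ k‖ ^ 2)]
  refine Finset.sum_congr rfl fun k _ => ?_
  rw [Fintype.sum_bool]
  simp only [if_true, Bool.false_eq_true, if_false]
  rw [← norm_coef μ x k]
  ring

lemma sum_im (x : Fin d → ℝ) : ∑ i : Q × Bool, (if i.2 then
      ((starRingEnd ℂ) (μ i.1) * ex (i.1 : Fin d → ℤ) x).re else
      ((starRingEnd ℂ) (μ i.1) * ex (i.1 : Fin d → ℤ) x).im) ^ 2 = ∑ k ∈ Q, ‖μ k‖ ^ 2 := by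
  rw [Fintype.sum_prod_type, ← Finset.sum_coe_sort Q (fun k => ‖μ k‖ ^ 2)]
  refine Finset.sum_congr rfl fun k _ => ?_
  rw [Fintype.sum_bool]
  simp only [if_true, Bool.false_eq_true, if_false]
  rw [← norm_coef μ x k]

lemma GG_moment (s : ℝ) (hs : 0 < s) (hμ : ∑ k ∈ Q, ‖μ k‖ ^ 2 ≤ s ^ 2) (b : ℕ) (x : Fin d → ℝ) :
    ∫⁻ z, ENNReal.ofReal (‖GG Q μ z x‖ ^ (2 * b)) ∂(gau (Q × Bool)) ≤
      ENNReal.ofReal (2 ^ (2 * b) * (4 * (2 * b).factorial * Real.exp (1 / 2)) * s ^ (2 * b)) := by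
  have hpt : ∀ z : Q × Bool → ℝ, ENNReal.ofReal (‖GG Q μ z x‖ ^ (2 * b)) ≤
      ENNReal.ofReal (2 ^ (2 * b)) * (ENNReal.ofReal (|(GG Q μ z x).re| ^ (2 * b)) +
        ENNReal.ofReal (|(GG Q μ z x).im| ^ (2 * b))) := by
    intro z
    rw [← ENNReal.ofReal_add (by positivity) (by positivity),
      ← ENNReal.ofReal_mul (by positivity)]
    apply ENNReal.ofReal_le_ofReal
    have h1 : ‖GG Q μ z x‖ ≤ |(GG Q μ z x).re| + |(GG Q μ z x).im| := Complex.norm_le_abs_re_add_abs_im _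
    set A := |(GG Q μ z x).re|
    set B := |(GG Q μ z x).im|
    have hA : 0 ≤ A := abs_nonneg _
    have hB : 0 ≤ B := abs_nonneg _
    have h2 : A + B ≤ 2 * max A B := by
      have := le_max_left A B
      have := le_max_right A B
      linarith
    calc ‖GG Q μ z x‖ ^ (2 * b) ≤ (2 * max A B) ^ (2 * b) :=
          pow_le_pow_left₀ (norm_nonneg _) (h1.trans h2) _
      _ = 2 ^ (2 * b) * (max A B) ^ (2 * b) := mul_pow _ _ _
      _ ≤ 2 ^ (2 * b) * (A ^ (2 * b) + B ^ (2 * b)) := by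
          apply mul_le_mul_of_nonneg_left _ (by positivity)
          rcases le_total A B with h | h
          · rw [max_eq_right h]
            linarith [pow_nonneg hA (2 * b)]
          · rw [max_eq_left h]
            linarith [pow_nonneg hB (2 * b)]
  have hm1 : Measurable fun z : Q × Bool → ℝ => ENNReal.ofReal (|(GG Q μ z x).re| ^ (2 * b)) := by
    simp only [GG_re]
    fun_prop
  refine (lintegral_mono hpt).trans ?_
  rw [lintegral_const_mul' _ _ ENNReal.ofReal_ne_top, lintegral_add_left hm1]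
  have h1 : ∫⁻ z, ENNReal.ofReal (|(GG Q μ z x).re| ^ (2 * b)) ∂(gau (Q × Bool)) ≤
      ENNReal.ofReal ((2 * b).factorial * (2 * Real.exp (1 / 2)) * s ^ (2 * b)) := by
    simp only [GG_re]
    exact gmoment _ s hs b (by rw [sum_re]; exact hμ)
  have h2 : ∫⁻ z, ENNReal.ofReal (|(GG Q μ z x).im| ^ (2 * b)) ∂(gau (Q × Bool)) ≤
      ENNReal.ofReal ((2 * b).factorial * (2 * Real.exp (1 / 2)) * s ^ (2 * b)) := by
    simp only [GG_im]
    exact gmoment _ s hs b (by rw [sum_im]; exact hμ)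
  calc _ ≤ ENNReal.ofReal (2 ^ (2 * b)) *
        (ENNReal.ofReal ((2 * b).factorial * (2 * Real.exp (1 / 2)) * s ^ (2 * b)) +
        ENNReal.ofReal ((2 * b).factorial * (2 * Real.exp (1 / 2)) * s ^ (2 * b))) := by
        gcongr
    _ = _ := by
        rw [← ENNReal.ofReal_add (by positivity) (by positivity),
          ← ENNReal.ofReal_mul (by positivity)]
        congr 1
        ring

lemma continuous_GG : Continuous fun p : (Q × Bool → ℝ) × (Fin d → ℝ) => GG Q μ p.1 p.2 := by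
  unfold GG cco ex
  fun_prop

end poly

theorem gauss_Lp (d b : ℕ) (hb : 1 ≤ b) : ∃ C : ℝ, 0 < C ∧
    ∀ (Q : Finset (Fin d → ℤ)) (μ : (Fin d → ℤ) → ℂ),
      Integrable (fun z => qp Q μ b z) (gau (Q × Bool)) ∧
      ∫ z, qp Q μ b z ∂(gau (Q × Bool)) ≤ C * Real.sqrt (∑ k ∈ Q, ‖μ k‖ ^ 2) := by
  have hprob := isProb_tor' d
  set M : ℝ := 2 ^ (2 * b) * (4 * (2 * b).factorial * Real.exp (1 / 2)) with hM
  have hM0 : 0 < M := by positivity
  refine ⟨1 + M, by positivity, fun Q μ => ?_⟩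
  have hgprob : IsProbabilityMeasure (gau (Q × Bool)) := by
    unfold gau
    infer_instance
  set e : (Q × Bool → ℝ) → ℝ≥0∞ := fun z => eLpNorm (fun x => GG Q μ z x) ((2 * b : ℕ) : ℝ≥0∞) (tor d)
    with he
  have hqe : ∀ z, qp Q μ b z = (e z).toReal := fun z => rfl
  have hp0 : ((2 * b : ℕ) : ℝ≥0∞) ≠ 0 := by
    simp only [ne_eq, Nat.cast_eq_zero]
    omega
  have hpt : ((2 * b : ℕ) : ℝ≥0∞) ≠ ⊤ := ENNReal.natCast_ne_top _
  have hbR : (0 : ℝ) < ((2 * b : ℕ) : ℝ) := by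
    have : 0 < 2 * b := by omega
    exact_mod_cast this
  have heq : ∀ z, e z = (∫⁻ x, ENNReal.ofReal (‖GG Q μ z x‖ ^ (2 * b)) ∂(tor d)) ^
      (1 / ((2 * b : ℕ) : ℝ)) := by
    intro z
    simp only [he]
    rw [eLpNorm_eq_lintegral_rpow_enorm_toReal hp0 hpt, ENNReal.toReal_natCast]
    congr 1
    refine lintegral_congr fun x => ?_
    rw [ENNReal.rpow_natCast, ENNReal.ofReal_pow (norm_nonneg _), ofReal_norm]
  have hmeas2 : Measurable fun p : (Q × Bool → ℝ) × (Fin d → ℝ) =>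
      ENNReal.ofReal (‖GG Q μ p.1 p.2‖ ^ (2 * b)) := by
    have := (continuous_GG Q μ).measurable
    fun_prop
  have hemeas : Measurable e := by
    have h1 : Measurable fun z : Q × Bool → ℝ =>
        ∫⁻ x, ENNReal.ofReal (‖GG Q μ z x‖ ^ (2 * b)) ∂(tor d) := hmeas2.lintegral_prod_right'
    have h2 : e = fun z => (∫⁻ x, ENNReal.ofReal (‖GG Q μ z x‖ ^ (2 * b)) ∂(tor d)) ^
      (1 / ((2 * b : ℕ) : ℝ)) := funext heq
    rw [h2]
    exact h1.pow_const _
  have hqmeas : Measurable fun z => qp Q μ b z := by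
    simp only [hqe]
    exact hemeas.ennreal_toReal
  -- choose `s`
  set S : ℝ := ∑ k ∈ Q, ‖μ k‖ ^ 2 with hS
  have hS0 : 0 ≤ S := Finset.sum_nonneg fun k _ => sq_nonneg _
  have hmain : ∀ s : ℝ, 0 < s → S ≤ s ^ 2 →
      ∫⁻ z, (e z) ^ (2 * b) ∂(gau (Q × Bool)) ≤ ENNReal.ofReal (M * s ^ (2 * b)) := by
    intro s hs hSs
    calc ∫⁻ z, (e z) ^ (2 * b) ∂(gau (Q × Bool))
        = ∫⁻ z, ∫⁻ x, ENNReal.ofReal (‖GG Q μ z x‖ ^ (2 * b)) ∂(tor d) ∂(gau (Q × Bool)) := by
          refine lintegral_congr fun z => ?_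
          rw [heq z, ← ENNReal.rpow_natCast, ← ENNReal.rpow_mul, one_div,
            inv_mul_cancel₀ hbR.ne', ENNReal.rpow_one]
      _ = ∫⁻ x, ∫⁻ z, ENNReal.ofReal (‖GG Q μ z x‖ ^ (2 * b)) ∂(gau (Q × Bool)) ∂(tor d) :=
          lintegral_lintegral_swap hmeas2.aemeasurable
      _ ≤ ∫⁻ _x, ENNReal.ofReal (M * s ^ (2 * b)) ∂(tor d) :=
          lintegral_mono fun x => GG_moment Q μ s hs hSs b x
      _ = ENNReal.ofReal (M * s ^ (2 * b)) := by
          rw [lintegral_const, measure_univ, mul_one]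
  -- pointwise bound by `s + s^(1-2b) e^(2b)`
  have hbd : ∀ s : ℝ, 0 < s → S ≤ s ^ 2 →
      ∫⁻ z, e z ∂(gau (Q × Bool)) ≤ ENNReal.ofReal ((1 + M) * s) := by
    intro s hs hSs
    have hpw : ∀ z, e z ≤ ENNReal.ofReal s + ENNReal.ofReal (s / s ^ (2 * b)) * (e z) ^ (2 * b) := by
      intro z
      rcases le_or_gt (e z) (ENNReal.ofReal s) with h | h
      · exact h.trans le_self_add
      · refine le_trans ?_ le_add_self
        rcases eq_or_ne (e z) ⊤ with ht | ht
        · rw [ht, ENNReal.top_pow (by omega), ENNReal.mul_top]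
          · simp only [ne_eq, ENNReal.ofReal_eq_zero, not_le]
            positivity
        · lift e z to NNReal using ht with t ht'
          have hst : s < t := by
            rw [← ENNReal.ofReal_coe_nnreal] at h
            exact (ENNReal.ofReal_lt_ofReal_iff_of_nonneg hs.le).mp h
          rw [← ENNReal.ofReal_coe_nnreal, ← ENNReal.ofReal_pow (NNReal.coe_nonneg t),
            ← ENNReal.ofReal_mul (by positivity)]
          apply ENNReal.ofReal_le_ofReal
          have h1 : (1 : ℝ) ≤ (t / s : ℝ) := by rw [one_le_div hs]; exact hst.le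
          have h2 : (t / s : ℝ) ≤ (t / s : ℝ) ^ (2 * b) := le_self_pow₀ h1 (by omega)
          calc (t : ℝ) = s * (t / s) := by field_simp
            _ ≤ s * (t / s : ℝ) ^ (2 * b) := mul_le_mul_of_nonneg_left h2 hs.le
            _ = s / s ^ (2 * b) * t ^ (2 * b) := by rw [div_pow]; ring
    calc ∫⁻ z, e z ∂(gau (Q × Bool))
        ≤ ∫⁻ z, (ENNReal.ofReal s + ENNReal.ofReal (s / s ^ (2 * b)) * (e z) ^ (2 * b))
            ∂(gau (Q × Bool)) := lintegral_mono hpw
      _ = ENNReal.ofReal s + ENNReal.ofReal (s / s ^ (2 * b)) *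
            ∫⁻ z, (e z) ^ (2 * b) ∂(gau (Q × Bool)) := by
          rw [lintegral_add_left measurable_const, lintegral_const, measure_univ, mul_one,
            lintegral_const_mul' _ _ ENNReal.ofReal_ne_top]
      _ ≤ ENNReal.ofReal s + ENNReal.ofReal (s / s ^ (2 * b)) *
            ENNReal.ofReal (M * s ^ (2 * b)) := by
          gcongr
          exact hmain s hs hSs
      _ = ENNReal.ofReal ((1 + M) * s) := by
          rw [← ENNReal.ofReal_mul (by positivity), ← ENNReal.ofReal_add hs.le (by positivity)]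
          congr 1
          field_simp
  have hfin : ∫⁻ z, e z ∂(gau (Q × Bool)) < ⊤ :=
    lt_of_le_of_lt (hbd (Real.sqrt S + 1) (by positivity) (by
      nlinarith [Real.sq_sqrt hS0, Real.sqrt_nonneg S])) ENNReal.ofReal_lt_top
  have hae : ∀ᵐ z ∂(gau (Q × Bool)), e z < ⊤ := ae_lt_top hemeas hfin.ne
  have hint : Integrable (fun z => qp Q μ b z) (gau (Q × Bool)) := by
    refine ⟨hqmeas.aestronglyMeasurable, ?_⟩
    rw [HasFiniteIntegral]
    refine lt_of_le_of_lt (lintegral_mono fun z => ?_) hfin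
    rw [hqe, Real.enorm_eq_ofReal ENNReal.toReal_nonneg]
    exact ENNReal.ofReal_toReal_le
  refine ⟨hint, ?_⟩
  have hval : ENNReal.ofReal (∫ z, qp Q μ b z ∂(gau (Q × Bool))) ≤ ∫⁻ z, e z ∂(gau (Q × Bool)) := by
    rw [ofReal_integral_eq_lintegral_ofReal hint (Filter.Eventually.of_forall fun z => by
      simp only [hqe, Pi.zero_apply]; exact ENNReal.toReal_nonneg)]
    exact lintegral_mono fun z => ENNReal.ofReal_toReal_le
  have hle : ∀ s : ℝ, 0 < s → S ≤ s ^ 2 → ∫ z, qp Q μ b z ∂(gau (Q × Bool)) ≤ (1 + M) * s := by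
    intro s hs hSs
    have := hval.trans (hbd s hs hSs)
    exact (ENNReal.ofReal_le_ofReal_iff (by positivity)).mp this
  -- let `s` tend to `sqrt S`
  refine le_of_forall_pos_le_add fun δ hδ => ?_
  have h1 := hle (Real.sqrt S + δ / (1 + M)) (by positivity) (by
    have h2 := Real.sq_sqrt hS0
    have h3 := Real.sqrt_nonneg S
    have h4 : 0 < δ / (1 + M) := by positivity
    nlinarith)
  calc _ ≤ (1 + M) * (Real.sqrt S + δ / (1 + M)) := h1
    _ = (1 + M) * Real.sqrt S + δ := by field_simp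

end Pool.Agent.Helper1.SB
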