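import Pool.Agent.Helper25.SB.Uni
import Pool.Agent.Helper22.SB.F0

/-!
# Module L9 of MP_7fc85e_an (stage 3A): `ℓ_1` bound for the fractional derivatives of the
building block
-/

open Finset MeasureTheory
open scoped ENNReal Real FourierTransform SchwartzMap

namespace Pool.Agent.Helper1.SB

open Pool.Agent.Helper60.SB Pool.Agent.Helper25.SB

/-! ### decay of a Schwartz function and of its differences -/

theorem l9_schwartz (U : 𝓢(ℝ, ℂ)) (n : ℕ) : ∃ B : ℝ, 0 < B ∧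
    (∀ x, ‖U x‖ * (1 + |x|) ^ n ≤ B) ∧
    ∀ x y, |x - y| ≤ 1 → ‖U x - U y‖ * (1 + |x|) ^ n ≤ B * |x - y| := by
  have key : ∀ V : 𝓢(ℝ, ℂ), ∃ B : ℝ, 0 < B ∧ ∀ x, ‖V x‖ * (1 + |x|) ^ n ≤ B := by
    intro V
    have h1 := fun ξ : ℝ => SchwartzMap.one_add_le_sup_seminorm_apply (𝕜 := ℝ) (m := (n, 0))
      (k := n) (n := 0) le_rfl le_rfl V ξ
    refine ⟨max (2 ^ (n, 0).1 * (Finset.Iic (n, 0)).sup
      (fun m => SchwartzMap.seminorm ℝ m.1 m.2) V) 1, lt_max_of_lt_right one_pos, fun ξ => ?_⟩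
    have h2 := h1 ξ
    rw [norm_iteratedFDeriv_zero, Real.norm_eq_abs, mul_comm] at h2
    exact h2.trans (le_max_left _ _)
  obtain ⟨B0, hB0, h0⟩ := key U
  obtain ⟨B1, hB1, h1⟩ := key (SchwartzMap.derivCLM ℝ ℂ U)
  refine ⟨max B0 (2 ^ n * B1), lt_max_of_lt_left hB0, fun x => (h0 x).trans (le_max_left _ _), ?_⟩
  intro x y hxy
  have hx : (0 : ℝ) < (1 + |x|) ^ n := by positivity
  have hbound : ∀ z ∈ Set.uIcc y x, ‖deriv U z‖ ≤ 2 ^ n * B1 / (1 + |x|) ^ n := by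
    intro z hz
    have hz1 : |x - z| ≤ 1 := by
      rw [Set.uIcc_comm] at hz
      refine le_trans ?_ hxy
      have := Set.abs_sub_left_of_mem_uIcc hz
      rw [abs_sub_comm x z, abs_sub_comm x y]
      exact this
    have hz2 : 1 + |x| ≤ 2 * (1 + |z|) := by
      have h3 : |x| ≤ |x - z| + |z| := by
        calc |x| = |(x - z) + z| := by ring_nf
          _ ≤ _ := abs_add_le _ _
      have := abs_nonneg z
      linarith
    have h4 := h1 z
    rw [SchwartzMap.derivCLM_apply] at h4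
    rw [le_div_iff₀ hx]
    calc ‖deriv U z‖ * (1 + |x|) ^ n ≤ ‖deriv U z‖ * (2 * (1 + |z|)) ^ n := by gcongr
      _ = 2 ^ n * (‖deriv U z‖ * (1 + |z|) ^ n) := by rw [mul_pow]; ring
      _ ≤ 2 ^ n * B1 := by gcongr
  have h5 := Convex.norm_image_sub_le_of_norm_deriv_le (𝕜 := ℝ) (f := U)
    (fun z _ => U.differentiableAt) hbound (convex_uIcc y x) Set.left_mem_uIcc Set.right_mem_uIcc
  calc ‖U x - U y‖ * (1 + |x|) ^ n ≤
        (2 ^ n * B1 / (1 + |x|) ^ n * ‖x - y‖) * (1 + |x|) ^ n := by gcongr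
    _ = 2 ^ n * B1 * |x - y| := by
        rw [Real.norm_eq_abs]
        field_simp
    _ ≤ max B0 (2 ^ n * B1) * |x - y| := by
        gcongr
        exact le_max_right _ _

/-- the power function near `1` -/
theorem l9_rpow (r : ℝ) (hr : 0 < r) : ∃ K : ℝ, 0 < K ∧ ∀ y : ℝ, 1 / 2 ≤ y → y ≤ 2 →
    |y ^ r - 1| ≤ K * |y - 1| := by
  refine ⟨r * 2 ^ |r - 1|, by positivity, fun y hy1 hy2 => ?_⟩
  have hb : ∀ z ∈ Set.Icc (1 / 2 : ℝ) 2, ‖deriv (fun x : ℝ => x ^ r) z‖ ≤ r * 2 ^ |r - 1| := by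
    intro z hz
    have hz0 : 0 < z := lt_of_lt_of_le (by norm_num) hz.1
    rw [(Real.hasDerivAt_rpow_const (Or.inl hz0.ne')).deriv, Real.norm_eq_abs, abs_mul,
      abs_of_pos hr, abs_of_pos (Real.rpow_pos_of_pos hz0 _)]
    gcongr
    rcases le_total 1 r with h | h
    · rw [abs_of_nonneg (by linarith)]
      exact Real.rpow_le_rpow hz0.le hz.2 (by linarith)
    · rw [abs_of_nonpos (by linarith), neg_sub]
      have h1 : z ^ (r - 1) ≤ (1 / 2 : ℝ) ^ (r - 1) :=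
        Real.rpow_le_rpow_of_nonpos (by norm_num) hz.1 (by linarith)
      refine h1.trans (le_of_eq ?_)
      rw [one_div, Real.inv_rpow (by norm_num), ← Real.rpow_neg (by norm_num), neg_sub]
  have h1 := Convex.norm_image_sub_le_of_norm_deriv_le (𝕜 := ℝ) (f := fun x : ℝ => x ^ r)
    (s := Set.Icc (1 / 2 : ℝ) 2) (fun z hz => (Real.hasDerivAt_rpow_const
      (Or.inl (lt_of_lt_of_le (by norm_num) hz.1).ne')).differentiableAt) hb (convex_Icc _ _)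
    (x := 1) (y := y) ⟨by norm_num, by norm_num⟩ ⟨hy1, hy2⟩
  simpa [Real.norm_eq_abs] using h1

theorem l9_rpow_diff (r : ℝ) (hr : 0 < r) : ∃ K : ℝ, 0 < K ∧ ∀ x y : ℝ, 1 ≤ x → 1 ≤ y →
    |y - x| ≤ 1 → |y ^ r - x ^ r| ≤ K * (x ^ r / x) := by
  obtain ⟨K, hK, h⟩ := l9_rpow r hr
  refine ⟨K, hK, fun x y hx hy hxy => ?_⟩
  have hx0 : 0 < x := by linarith
  rw [abs_le] at hxy
  have h1 : 1 / 2 ≤ y / x := by
    rw [div_le_div_iff₀ (by norm_num) hx0]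
    by_cases h2 : x ≤ 2
    · linarith
    · linarith [not_le.mp h2, hxy.1]
  have h2 : y / x ≤ 2 := by
    rw [div_le_iff₀ hx0]
    linarith
  have h3 := h (y / x) h1 h2
  have h4 : y ^ r - x ^ r = x ^ r * ((y / x) ^ r - 1) := by
    rw [Real.div_rpow (by linarith) hx0.le]
    have : x ^ r ≠ 0 := (Real.rpow_pos_of_pos hx0 r).ne'
    field_simp
  have h5 : |y / x - 1| ≤ 1 / x := by
    rw [div_sub_one hx0.ne', abs_div, abs_of_pos hx0]
    exact div_le_div_of_nonneg_right (abs_le.mpr hxy) hx0.le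
  have hxr : 0 < x ^ r := Real.rpow_pos_of_pos hx0 r
  rw [h4, abs_mul, abs_of_pos hxr]
  calc x ^ r * |(y / x) ^ r - 1| ≤ x ^ r * (K * (1 / x)) := by
        refine mul_le_mul_of_nonneg_left (h3.trans ?_) hxr.le
        exact mul_le_mul_of_nonneg_left h5 hK.le
    _ = K * (x ^ r / x) := by ring

/-- differences of the coefficients of the fractional derivative -/
theorem l9_bmul_diff (r a : ℝ) (hr : 0 < r) : ∃ K : ℝ, 0 < K ∧ ∀ k : ℤ, k ≠ 0 → k - 1 ≠ 0 →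
    ‖(bmul r a k)⁻¹ - (bmul r a (k - 1))⁻¹‖ ≤
      K * (|((k - 1 : ℤ) : ℝ)| ^ r / |((k - 1 : ℤ) : ℝ)|) := by
  obtain ⟨K, hK, h⟩ := l9_rpow_diff r hr
  refine ⟨K, hK, fun k hk hk1 => ?_⟩
  have hsign : SignType.sign k = SignType.sign (k - 1) := by
    rcases lt_or_gt_of_ne hk with h | h
    · rw [sign_neg h, sign_neg (by omega)]
    · rw [sign_pos h, sign_pos (by omega)]
  have habs : ∀ m : ℤ, m ≠ 0 → (1 : ℝ) ≤ |(m : ℝ)| := by
    intro m hm
    exact_mod_cast Int.one_le_abs hm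
  have h1 : ∀ m : ℤ, m ≠ 0 → (bmul r a m)⁻¹ = ((|(m : ℝ)| ^ r : ℝ) : ℂ) *
      (Complex.exp (-(Complex.I * (SignType.sign m : ℤ) * (a * π / 2))))⁻¹ := by
    intro m hm
    rw [bmul, if_neg hm, mul_inv, Real.rpow_neg (abs_nonneg _)]
    push_cast
    rw [inv_inv]
  rw [h1 k hk, h1 (k - 1) hk1, hsign, ← sub_mul, norm_mul]
  have h2 : ‖(Complex.exp (-(Complex.I * (SignType.sign (k - 1) : ℤ) * (a * π / 2))))⁻¹‖ = 1 := by
    have h3 : ∀ σ : ℤ, -(Complex.I * σ * (a * π / 2)) =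
        ((-(σ * (a * π / 2)) : ℝ) : ℂ) * Complex.I := by
      intro σ
      push_cast
      ring
    rw [norm_inv, h3, Complex.norm_exp_ofReal_mul_I, inv_one]
  rw [h2, mul_one, ← Complex.ofReal_sub, Complex.norm_real, Real.norm_eq_abs]
  apply h _ _ (habs _ hk1) (habs _ hk)
  calc |(|(k : ℝ)| - |((k - 1 : ℤ) : ℝ)|)| ≤ |(k : ℝ) - ((k - 1 : ℤ) : ℝ)| :=
        abs_abs_sub_abs_le_abs_sub _ _
    _ = 1 := by
        push_cast
        rw [sub_sub_cancel, abs_one]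
    _ ≤ 1 := le_rfl

/-- the differences of the coefficients -/
theorem l9_cf_diff (u : ℝ → ℝ) (hu : ContDiff ℝ (⊤ : ℕ∞) u)
    (hsupp : ∀ t, (t ≤ 1 / 10 ∨ 9 / 10 ≤ t) → u t = 0) (hint : ∫ t, u t = 0) (r a : ℝ)
    (hr : 0 < r) : ∃ C : ℝ, 0 < C ∧ ∀ (s : ℕ) (k : ℤ),
    ‖cf u r a s (k - 1) - cf u r a s k‖ ≤
      C * ((2 : ℝ) ^ s) ^ r / (2 ^ s) ^ 2 / (1 + |(k : ℝ)| / 2 ^ s) ^ 2 := by
  have hcs : HasCompactSupport (fun t : ℝ => (u t : ℂ)) := by
    refine HasCompactSupport.intro (isCompact_Icc (a := (0 : ℝ)) (b := 1)) fun t ht => ?_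
    rw [Set.mem_Icc, not_and_or, not_le, not_le] at ht
    rw [hsupp t (ht.imp (fun h => by linarith) (fun h => by linarith)), Complex.ofReal_zero]
  let U : 𝓢(ℝ, ℂ) := hcs.toSchwartzMap (Complex.ofRealCLM.contDiff.comp hu)
  obtain ⟨B, hB, hB1, hB2⟩ := l9_schwartz (𝓕 U) (⌈r⌉₊ + 2)
  obtain ⟨K, hK, hK1⟩ := l9_bmul_diff r a hr
  have hUeq : ∀ ξ, (𝓕 U) ξ = 𝓕 (fun t => (u t : ℂ)) ξ := fun ξ => rfl
  have hU0 : (𝓕 U) 0 = 0 := by
    rw [hUeq, fourier_zero u hint]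
  -- bound near the origin
  have hB3 : ∀ x : ℝ, ‖(𝓕 U) x‖ * (1 + |x|) ^ (⌈r⌉₊ + 2) ≤ B * |x| := by
    intro x
    by_cases hx : |x| ≤ 1
    · have := hB2 x 0 (by rwa [sub_zero])
      rwa [hU0, sub_zero, sub_zero] at this
    · refine (hB1 x).trans ?_
      have := not_le.mp hx
      nlinarith
  have hpow : ∀ x : ℝ, 0 ≤ x → x ^ r ≤ (1 + x) ^ ⌈r⌉₊ := by
    intro x hx
    calc x ^ r ≤ (1 + x) ^ r := Real.rpow_le_rpow hx (by linarith) hr.le
      _ ≤ (1 + x) ^ (⌈r⌉₊ : ℝ) :=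
          Real.rpow_le_rpow_of_exponent_le (by linarith) (Nat.le_ceil r)
      _ = (1 + x) ^ ⌈r⌉₊ := Real.rpow_natCast _ _
  refine ⟨B + 4 * (B * K) + 4 * B, by positivity, fun s k => ?_⟩
  set Q : ℝ := 2 ^ s with hQdef
  have hQ : 0 < Q := by positivity
  have hQ1 : 1 ≤ Q := one_le_pow₀ (by norm_num)
  have hQr : 0 < Q ^ r := Real.rpow_pos_of_pos hQ r
  have hQr1 : 1 ≤ Q ^ r := Real.one_le_rpow hQ1 hr.le
  have hcf : ∀ m : ℤ, cf u r a s m = (Q : ℂ)⁻¹ * (𝓕 U) ((m : ℝ) / Q) * (bmul r a m)⁻¹ := by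
    intro m
    rw [cf, hUeq, hQdef, div_eq_mul_inv]
    push_cast
    rfl
  have hnQ : ‖(Q : ℂ)⁻¹‖ = Q⁻¹ := by
    rw [norm_inv, Complex.norm_real, Real.norm_of_nonneg hQ.le]
  have hone : ∀ m : ℤ, |(m : ℝ)| = 1 → ‖cf u r a s m‖ ≤ B / Q ^ 2 := by
    intro m hm
    have hm0 : m ≠ 0 := by
      rintro rfl
      simp at hm
    rw [hcf, norm_mul, norm_mul, hnQ, norm_inv, norm_bmul r a hm0, hm, Real.one_rpow, inv_one,
      mul_one]
    have h1 := hB3 ((m : ℝ) / Q)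
    rw [abs_div, hm, abs_of_pos hQ] at h1
    have h2 : (1 : ℝ) ≤ (1 + 1 / Q) ^ (⌈r⌉₊ + 2) :=
      one_le_pow₀ (by linarith [show (0 : ℝ) < 1 / Q by positivity])
    have h3 : ‖(𝓕 U) ((m : ℝ) / Q)‖ ≤ B * (1 / Q) :=
      le_trans (le_mul_of_one_le_right (norm_nonneg _) h2) h1
    calc Q⁻¹ * ‖(𝓕 U) ((m : ℝ) / Q)‖ ≤ Q⁻¹ * (B * (1 / Q)) := by gcongr
      _ = B / Q ^ 2 := by field_simp
  have hsmall : ∀ x : ℝ, 0 ≤ x → x ≤ 1 →
      B / Q ^ 2 ≤ (B + 4 * (B * K) + 4 * B) * Q ^ r / Q ^ 2 / (1 + x / Q) ^ 2 := by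
    intro x hx0 hx1
    have h1 : x / Q ≤ 1 := by
      rw [div_le_one hQ]
      linarith
    have h1' : 0 ≤ x / Q := by positivity
    rw [le_div_iff₀ (by positivity), div_mul_eq_mul_div]
    apply div_le_div_of_nonneg_right _ (by positivity)
    calc B * (1 + x / Q) ^ 2 ≤ B * (1 + 1) ^ 2 := by gcongr
      _ = 4 * B * 1 := by ring
      _ ≤ (B + 4 * (B * K) + 4 * B) * Q ^ r := by
        apply mul_le_mul _ hQr1 (by norm_num) (by positivity)
        have : 0 < B * K := by positivity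
        linarith
  by_cases hk0 : k = 0
  · subst hk0
    rw [cf_zero u hint, sub_zero]
    refine (hone (0 - 1) (by push_cast; norm_num)).trans ?_
    have := hsmall 0 le_rfl (by norm_num)
    simpa using this
  by_cases hk1 : k - 1 = 0
  · have hk : k = 1 := by omega
    subst hk
    rw [sub_self, cf_zero u hint, zero_sub, norm_neg]
    refine (hone 1 (by simp)).trans ?_
    have := hsmall 1 (by norm_num) le_rfl
    simpa using this
  -- the general case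
  have hdecomp : cf u r a s (k - 1) - cf u r a s k =
      -((Q : ℂ)⁻¹ * (((𝓕 U) ((k : ℝ) / Q) - (𝓕 U) (((k - 1 : ℤ) : ℝ) / Q)) * (bmul r a k)⁻¹ +
        (𝓕 U) (((k - 1 : ℤ) : ℝ) / Q) * ((bmul r a k)⁻¹ - (bmul r a (k - 1))⁻¹))) := by
    rw [hcf, hcf]
    ring
  rw [hdecomp, norm_neg, norm_mul, hnQ]
  set x : ℝ := |(k : ℝ)| with hx
  set y : ℝ := |((k - 1 : ℤ) : ℝ)| with hy
  have hx1 : 1 ≤ x := by
    rw [hx]
    exact_mod_cast Int.one_le_abs hk0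
  have hy1 : 1 ≤ y := by
    rw [hy]
    exact_mod_cast Int.one_le_abs hk1
  have hxy : x ≤ y + 1 := by
    rw [hx, hy]
    calc |(k : ℝ)| = |((k - 1 : ℤ) : ℝ) + 1| := by push_cast; ring_nf
      _ ≤ |((k - 1 : ℤ) : ℝ)| + |1| := abs_add_le _ _
      _ = _ := by rw [abs_one]
  have hxQ : |(k : ℝ) / Q| = x / Q := by rw [abs_div, abs_of_pos hQ]
  have hyQ : |((k - 1 : ℤ) : ℝ) / Q| = y / Q := by rw [abs_div, abs_of_pos hQ]
  have e1 := hB2 ((k : ℝ) / Q) (((k - 1 : ℤ) : ℝ) / Q) (by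
    rw [← sub_div, abs_div, abs_of_pos hQ]
    push_cast
    rw [sub_sub_cancel, abs_one, div_le_one hQ]
    exact hQ1)
  have e2 : |(k : ℝ) / Q - ((k - 1 : ℤ) : ℝ) / Q| = 1 / Q := by
    rw [← sub_div, abs_div, abs_of_pos hQ]
    push_cast
    rw [sub_sub_cancel, abs_one]
  rw [hxQ, e2] at e1
  have e3 := hB3 (((k - 1 : ℤ) : ℝ) / Q)
  rw [hyQ] at e3
  have e4 := hK1 k hk0 hk1
  rw [← hy] at e4
  have e5 : ‖(bmul r a k)⁻¹‖ = x ^ r := by
    rw [norm_inv, norm_bmul r a hk0, Real.rpow_neg (abs_nonneg _), inv_inv]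
  have px : (0 : ℝ) < 1 + x / Q := by positivity
  have py : (0 : ℝ) < 1 + y / Q := by positivity
  have f1 : ‖(𝓕 U) ((k : ℝ) / Q) - (𝓕 U) (((k - 1 : ℤ) : ℝ) / Q)‖ ≤
      B * (1 / Q) / (1 + x / Q) ^ (⌈r⌉₊ + 2) := by
    rw [le_div_iff₀ (by positivity)]
    exact e1
  have f2 : ‖(𝓕 U) (((k - 1 : ℤ) : ℝ) / Q)‖ ≤ B * (y / Q) / (1 + y / Q) ^ (⌈r⌉₊ + 2) := by
    rw [le_div_iff₀ (by positivity)]
    exact e3
  have g1 : x ^ r ≤ Q ^ r * (1 + x / Q) ^ ⌈r⌉₊ := by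
    have h1 : x ^ r = Q ^ r * (x / Q) ^ r := by
      rw [← Real.mul_rpow hQ.le (by positivity)]
      congr 1
      field_simp
    rw [h1]
    exact mul_le_mul_of_nonneg_left (hpow _ (by positivity)) hQr.le
  have g2 : y ^ r ≤ Q ^ r * (1 + y / Q) ^ ⌈r⌉₊ := by
    have h1 : y ^ r = Q ^ r * (y / Q) ^ r := by
      rw [← Real.mul_rpow hQ.le (by positivity)]
      congr 1
      field_simp
    rw [h1]
    exact mul_le_mul_of_nonneg_left (hpow _ (by positivity)) hQr.le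
  have t1 : ‖((𝓕 U) ((k : ℝ) / Q) - (𝓕 U) (((k - 1 : ℤ) : ℝ) / Q)) * (bmul r a k)⁻¹‖ ≤
      B * Q ^ r / Q / (1 + x / Q) ^ 2 := by
    rw [norm_mul, e5]
    calc _ ≤ B * (1 / Q) / (1 + x / Q) ^ (⌈r⌉₊ + 2) * (Q ^ r * (1 + x / Q) ^ ⌈r⌉₊) := by
          gcongr
      _ = B * Q ^ r / Q / (1 + x / Q) ^ 2 := by
          rw [pow_add]
          field_simp
  have t2 : ‖(𝓕 U) (((k - 1 : ℤ) : ℝ) / Q) * ((bmul r a k)⁻¹ - (bmul r a (k - 1))⁻¹)‖ ≤
      4 * (B * K) * Q ^ r / Q / (1 + x / Q) ^ 2 := by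
    rw [norm_mul]
    have h2 : 1 + x / Q ≤ 2 * (1 + y / Q) := by
      have h3 : x / Q ≤ y / Q + 1 := by
        rw [div_add_one hQ.ne']
        exact div_le_div_of_nonneg_right (by linarith) hQ.le
      have : 0 ≤ y / Q := by positivity
      linarith
    calc _ ≤ B * (y / Q) / (1 + y / Q) ^ (⌈r⌉₊ + 2) * (K * (y ^ r / y)) := by
          gcongr
      _ ≤ B * (y / Q) / (1 + y / Q) ^ (⌈r⌉₊ + 2) *
            (K * ((Q ^ r * (1 + y / Q) ^ ⌈r⌉₊) / y)) := by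
          gcongr
      _ = B * K * Q ^ r / Q / (1 + y / Q) ^ 2 := by
          rw [pow_add]
          field_simp
      _ ≤ 4 * (B * K) * Q ^ r / Q / (1 + x / Q) ^ 2 := by
          rw [div_le_div_iff₀ (by positivity) (by positivity)]
          calc B * K * Q ^ r / Q * (1 + x / Q) ^ 2 ≤
              B * K * Q ^ r / Q * (2 * (1 + y / Q)) ^ 2 := by gcongr
            _ = 4 * (B * K) * Q ^ r / Q * (1 + y / Q) ^ 2 := by ring
  calc Q⁻¹ * ‖_ + _‖ ≤ Q⁻¹ * (B * Q ^ r / Q / (1 + x / Q) ^ 2 +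
        4 * (B * K) * Q ^ r / Q / (1 + x / Q) ^ 2) := by
        refine mul_le_mul_of_nonneg_left ((norm_add_le _ _).trans (add_le_add t1 t2)) ?_
        positivity
    _ = (B + 4 * (B * K)) * Q ^ r / Q ^ 2 / (1 + x / Q) ^ 2 := by
        field_simp
    _ ≤ (B + 4 * (B * K) + 4 * B) * Q ^ r / Q ^ 2 / (1 + x / Q) ^ 2 := by
        have h9 : B + 4 * (B * K) ≤ B + 4 * (B * K) + 4 * B := by linarith
        refine div_le_div_of_nonneg_right (div_le_div_of_nonneg_right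
          (mul_le_mul_of_nonneg_right h9 hQr.le) ?_) ?_ <;> positivity

/-! ### the weights -/

/-- the value of the basic character -/
noncomputable def E1 (Q : ℕ) (t : ℝ) (c : ℕ) : ℂ :=
  Complex.exp (Complex.I * (1 : ℤ) * t) * ec Q 1 c

theorem l9_weight (Q : ℕ) (hQ : 0 < Q) (t : ℝ) :
    ∑ c ∈ range Q, 1 / (1 + (Q * ‖E1 Q t c - 1‖) ^ 2) ≤ 3 / 2 * S0 := by
  have hQ' : (0 : ℝ) < Q := by exact_mod_cast hQ
  set y : ℝ := Q * t / (2 * π) with hy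
  set m : ℕ → ℤ := fun c => round ((y - c) / Q) with hm
  set n : ℕ → ℤ := fun c => c + Q * m c - ⌊y⌋ with hn
  have hpi := Real.pi_pos
  -- the lower bound for the distance
  have h1 : ∀ c : ℕ, |y - c - Q * m c| ≤ Q * ‖E1 Q t c - 1‖ := by
    intro c
    set δ : ℝ := (y - c) / Q - m c with hδ
    have hδ1 : |δ| ≤ 1 / 2 := abs_sub_round _
    have hE : E1 Q t c = Complex.exp (Complex.I * ((2 * π * δ : ℝ) : ℂ)) := by
      rw [E1, ec, ← Complex.exp_add]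
      have e : Complex.I * (1 : ℤ) * t + -(2 * π * Complex.I * (1 : ℤ) * c / (Q : ℕ)) =
          Complex.I * ((2 * π * δ : ℝ) : ℂ) + (m c) * (2 * π * Complex.I) := by
        have hpi' : (π : ℂ) ≠ 0 := by exact_mod_cast hpi.ne'
        have hQc : (Q : ℂ) ≠ 0 := by exact_mod_cast hQ'.ne'
        rw [hδ, hy]
        push_cast
        field_simp
        ring
      have e' : Complex.I * (1 : ℤ) * t + -(2 * π * Complex.I * (1 : ℤ) * c / ((Q : ℝ) : ℂ)) =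
          Complex.I * ((2 * π * δ : ℝ) : ℂ) + (m c) * (2 * π * Complex.I) := by
        rw [← e]
        push_cast
        rfl
      rw [e', Complex.exp_add, Complex.exp_int_mul_two_pi_mul_I, mul_one]
    have h2 : ‖E1 Q t c - 1‖ = ‖2 * Real.sin (2 * π * δ / 2)‖ := by
      rw [hE, Complex.norm_exp_I_mul_ofReal_sub_one]
    have h3 : 2 / π * |2 * π * δ / 2| ≤ |Real.sin (2 * π * δ / 2)| := by
      apply Real.mul_abs_le_abs_sin
      rw [show 2 * π * δ / 2 = π * δ by ring, abs_mul, abs_of_pos hpi]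
      nlinarith
    have h4 : 2 / π * |2 * π * δ / 2| = 2 * |δ| := by
      rw [show 2 * π * δ / 2 = π * δ by ring, abs_mul, abs_of_pos hpi]
      field_simp
    rw [h4] at h3
    rw [h2, norm_mul, Real.norm_eq_abs, Real.norm_eq_abs, abs_of_pos (by norm_num : (0:ℝ) < 2)]
    have h5 : y - c - Q * m c = Q * δ := by
      rw [hδ]
      field_simp
    rw [h5, abs_mul, abs_of_pos hQ']
    have := abs_nonneg δ
    nlinarith
  have h2 : ∀ c : ℕ, 1 / (1 + (Q * ‖E1 Q t c - 1‖) ^ 2) ≤ 3 / 2 * (2 / (1 + ((n c : ℤ) : ℝ) ^ 2)) := by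
    intro c
    have h3 := h1 c
    set w : ℝ := y - c - Q * m c with hw
    have h4 : |((n c : ℤ) : ℝ)| ≤ 1 + |w| := by
      have h5 : ((n c : ℤ) : ℝ) = -w + (y - ⌊y⌋) := by
        rw [hn, hw]
        push_cast
        ring
      have h6 : |y - ⌊y⌋| ≤ 1 := by
        rw [abs_of_nonneg (by linarith [Int.floor_le y])]
        linarith [Int.lt_floor_add_one y]
      rw [h5]
      calc |-w + (y - ⌊y⌋)| ≤ |-w| + |y - ⌊y⌋| := abs_add_le _ _
        _ ≤ 1 + |w| := by rw [abs_neg]; linarith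
    have h7 : ((n c : ℤ) : ℝ) ^ 2 ≤ 2 + 2 * w ^ 2 := by
      have h8 : ((n c : ℤ) : ℝ) ^ 2 ≤ (1 + |w|) ^ 2 := by
        rw [← sq_abs]
        exact pow_le_pow_left₀ (abs_nonneg _) h4 2
      have h9 : |w| ^ 2 = w ^ 2 := sq_abs w
      nlinarith [sq_nonneg (1 - |w|)]
    have h10 : w ^ 2 ≤ (Q * ‖E1 Q t c - 1‖) ^ 2 := by
      rw [← sq_abs]
      exact pow_le_pow_left₀ (abs_nonneg _) h3 2
    rw [div_le_iff₀ (by positivity)]
    have h11 : 3 / 2 * (2 / (1 + ((n c : ℤ) : ℝ) ^ 2)) * (1 + (Q * ‖E1 Q t c - 1‖) ^ 2) =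
        3 * (1 + (Q * ‖E1 Q t c - 1‖) ^ 2) / (1 + ((n c : ℤ) : ℝ) ^ 2) := by ring
    rw [h11, le_div_iff₀ (by positivity)]
    nlinarith
  refine (Finset.sum_le_sum fun c _ => h2 c).trans ?_
  rw [← Finset.mul_sum]
  refine mul_le_mul_of_nonneg_left ?_ (by norm_num)
  have hinj : Set.InjOn n (range Q : Finset ℕ) := by
    intro c hc c' hc' h
    rw [Finset.mem_coe, Finset.mem_range] at hc hc'
    simp only [hn] at h
    have h3 : (c : ℤ) - c' = Q * (m c' - m c) := by linarith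
    have h4 : (Q : ℤ) ∣ (c : ℤ) - c' := ⟨_, h3⟩
    have h5 : (c : ℤ) - c' = 0 := by
      apply Int.eq_zero_of_abs_lt_dvd h4
      rw [abs_lt]
      constructor <;> omega
    omega
  rw [← Finset.sum_image (f := fun n : ℤ => 2 / (1 + (n : ℝ) ^ 2)) (g := n) hinj]
  exact summable_S0.sum_le_tsum _ fun n _ => by positivity

/-! ### the functions `Phi` -/

theorem l9_summable (s c : ℕ) (t : ℝ) (b : ℤ → ℂ) (hb : Summable fun k => ‖b k‖) :
    Summable fun k : ℤ => b k * Complex.exp (Complex.I * k * t) * ec (2 ^ s : ℕ) k c := by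
  refine Summable.of_norm ?_
  simp_rw [norm_mul, norm_ei, norm_ec, mul_one]
  exact hb

theorem l9_E1 (s c : ℕ) (t : ℝ) (k : ℤ) :
    Complex.exp (Complex.I * ((k + 1 : ℤ) : ℂ) * t) * ec (2 ^ s : ℕ) (k + 1) c =
      E1 (2 ^ s) t c * (Complex.exp (Complex.I * (k : ℂ) * t) * ec (2 ^ s : ℕ) k c) := by
  rw [E1, ec, ec, ec, ← Complex.exp_add, ← Complex.exp_add, ← Complex.exp_add,
    ← Complex.exp_add]
  congr 1
  push_cast
  ring

theorem l9_shift (s c : ℕ) (t : ℝ) (b : ℤ → ℂ) :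
    ∑' k : ℤ, b (k - 1) * Complex.exp (Complex.I * k * t) * ec (2 ^ s : ℕ) k c =
      E1 (2 ^ s) t c *
        ∑' k : ℤ, b k * Complex.exp (Complex.I * k * t) * ec (2 ^ s : ℕ) k c := by
  rw [← (Equiv.addRight (1 : ℤ)).tsum_eq (fun k : ℤ => b (k - 1) *
      Complex.exp (Complex.I * k * t) * ec (2 ^ s : ℕ) k c), ← tsum_mul_left]
  refine tsum_congr fun k => ?_
  have h := l9_E1 s c t k
  show b (k + 1 - 1) * Complex.exp (Complex.I * ((k + 1 : ℤ) : ℂ) * t) *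
    ec (2 ^ s : ℕ) (k + 1) c = _
  rw [add_sub_cancel_right, mul_assoc, h]
  ring

theorem l9_Phi_mul (u : ℝ → ℝ) (r a : ℝ) (s c : ℕ) (t : ℝ)
    (hsum : Summable fun k => ‖cf u r a s k‖) :
    (E1 (2 ^ s) t c - 1) * Phi u r a s c t = ∑' k : ℤ,
      ((cf u r a s (k - 1) - cf u r a s k) * Complex.exp (Complex.I * k * t)) *
        ec (2 ^ s : ℕ) k c := by
  have hsum' : Summable fun k : ℤ => ‖cf u r a s (k - 1)‖ := by
    have h := (Equiv.subRight (1 : ℤ)).summable_iff (f := fun k => ‖cf u r a s k‖)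
    exact h.mpr hsum
  have h1 := l9_shift s c t (cf u r a s)
  have h2 : ∀ k : ℤ, ((cf u r a s (k - 1) - cf u r a s k) * Complex.exp (Complex.I * k * t)) *
        ec (2 ^ s : ℕ) k c = cf u r a s (k - 1) * Complex.exp (Complex.I * k * t) *
      ec (2 ^ s : ℕ) k c - cf u r a s k * Complex.exp (Complex.I * k * t) *
      ec (2 ^ s : ℕ) k c := fun k => by ring
  rw [tsum_congr h2, (l9_summable s c t (fun k => cf u r a s (k - 1)) hsum').tsum_sub
    (l9_summable s c t (cf u r a s) hsum), h1, Phi]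
  ring

theorem l9_l1 (u : ℝ → ℝ) (hu : ContDiff ℝ (⊤ : ℕ∞) u)
    (hsupp : ∀ t, (t ≤ 1 / 10 ∨ 9 / 10 ≤ t) → u t = 0) (hint : ∫ t, u t = 0) (r a : ℝ)
    (hr : 0 < r) : ∃ C : ℝ, 0 < C ∧ ∀ (s : ℕ) (t : ℝ),
    ∑ c ∈ range (2 ^ s), ‖Phi u r a s c t‖ ≤ C * ((2 : ℝ) ^ s) ^ r := by
  obtain ⟨C, hC0, hC⟩ := fourier_decay u hu hsupp r hr
  obtain ⟨C', hC0', hC'⟩ := l9_cf_diff u hu hsupp hint r a hr
  have hS0 := S0_nonneg
  refine ⟨Real.sqrt ((C ^ 2 + C' ^ 2) * S0 ^ 2 * (3 / 2 * S0)) + 1, by positivity, fun s t => ?_⟩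
  set Q : ℕ := 2 ^ s with hQdef
  have hQ : 0 < Q := by positivity
  have hQ' : (0 : ℝ) < Q := by exact_mod_cast hQ
  have hQc : ((2 : ℝ) ^ s) = Q := by rw [hQdef]; push_cast; rfl
  rw [hQc]
  have hQr : 0 < (Q : ℝ) ^ r := Real.rpow_pos_of_pos hQ' r
  have hb : ∀ k : ℤ, ‖cf u r a s k * Complex.exp (Complex.I * k * t)‖ ≤
      C * (Q : ℝ) ^ r / Q / (1 + |(k : ℝ)| / Q) ^ 2 := by
    intro k
    rw [norm_mul, norm_ei, mul_one, ← hQc]
    exact norm_cf_le u hint a hC0 hC s k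
  have hb' : ∀ k : ℤ, ‖(cf u r a s (k - 1) - cf u r a s k) *
      Complex.exp (Complex.I * k * t)‖ ≤ C' * (Q : ℝ) ^ r / Q ^ 2 / (1 + |(k : ℝ)| / Q) ^ 2 := by
    intro k
    rw [norm_mul, norm_ei, mul_one, ← hQc]
    exact hC' s k
  have hsum : Summable fun k => ‖cf u r a s k‖ := by
    refine summable_of_bd (Q := Q) hQ (M := C * (Q : ℝ) ^ r / Q) (by positivity) fun k => ?_
    have := hb k
    rwa [norm_mul, norm_ei, mul_one] at this
  have A1 := square_fun (Q := Q) hQ (M := C * (Q : ℝ) ^ r / Q) (by positivity) hb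
  have A2 := square_fun (Q := Q) hQ (M := C' * (Q : ℝ) ^ r / Q ^ 2) (by positivity) hb'
  have A2' : ∑ c ∈ range Q, (‖E1 Q t c - 1‖ * ‖Phi u r a s c t‖) ^ 2 ≤
      (Q * (C' * (Q : ℝ) ^ r / Q ^ 2 * S0)) ^ 2 := by
    refine le_trans (le_of_eq ?_) A2
    refine Finset.sum_congr rfl fun c _ => ?_
    rw [← norm_mul, l9_Phi_mul u r a s c t hsum]
  have A1' : ∑ c ∈ range Q, ‖Phi u r a s c t‖ ^ 2 ≤
      (Q * (C * (Q : ℝ) ^ r / Q * S0)) ^ 2 := A1
  have hW := l9_weight Q hQ t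
  set W : ℕ → ℝ := fun c => 1 + (Q * ‖E1 Q t c - 1‖) ^ 2 with hWdef
  have hWpos : ∀ c, 0 < W c := fun c => by
    rw [hWdef]
    positivity
  have A3 : ∑ c ∈ range Q, ‖Phi u r a s c t‖ ^ 2 * W c ≤ (C ^ 2 + C' ^ 2) * S0 ^ 2 *
      ((Q : ℝ) ^ r) ^ 2 := by
    have h1 : ∀ c, ‖Phi u r a s c t‖ ^ 2 * W c = ‖Phi u r a s c t‖ ^ 2 +
        (Q : ℝ) ^ 2 * (‖E1 Q t c - 1‖ * ‖Phi u r a s c t‖) ^ 2 := by
      intro c
      rw [hWdef]
      ring
    simp_rw [h1]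
    rw [Finset.sum_add_distrib, ← Finset.mul_sum]
    calc _ ≤ (Q * (C * (Q : ℝ) ^ r / Q * S0)) ^ 2 +
          (Q : ℝ) ^ 2 * (Q * (C' * (Q : ℝ) ^ r / Q ^ 2 * S0)) ^ 2 := by
          gcongr
      _ = _ := by
          field_simp
  have A4 : (∑ c ∈ range Q, ‖Phi u r a s c t‖) ^ 2 ≤
      ((C ^ 2 + C' ^ 2) * S0 ^ 2 * ((Q : ℝ) ^ r) ^ 2) * (3 / 2 * S0) := by
    have h1 := Finset.sum_mul_sq_le_sq_mul_sq (range Q)
      (fun c => ‖Phi u r a s c t‖ * Real.sqrt (W c)) (fun c => (Real.sqrt (W c))⁻¹)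
    have h2 : ∀ c, ‖Phi u r a s c t‖ * Real.sqrt (W c) * (Real.sqrt (W c))⁻¹ =
        ‖Phi u r a s c t‖ := by
      intro c
      have := (Real.sqrt_pos.mpr (hWpos c)).ne'
      field_simp
    have h3 : ∀ c, (‖Phi u r a s c t‖ * Real.sqrt (W c)) ^ 2 = ‖Phi u r a s c t‖ ^ 2 * W c := by
      intro c
      rw [mul_pow, Real.sq_sqrt (hWpos c).le]
    have h4 : ∀ c, ((Real.sqrt (W c))⁻¹) ^ 2 = 1 / W c := by
      intro c
      rw [inv_pow, Real.sq_sqrt (hWpos c).le, one_div]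
    simp_rw [h2, h3, h4] at h1
    refine h1.trans ?_
    apply mul_le_mul A3 hW
    · exact Finset.sum_nonneg fun c _ => by
        have := hWpos c
        positivity
    · positivity
  have A5 : ∑ c ∈ range Q, ‖Phi u r a s c t‖ ≤
      Real.sqrt ((C ^ 2 + C' ^ 2) * S0 ^ 2 * (3 / 2 * S0)) * (Q : ℝ) ^ r := by
    have h0 : 0 ≤ ∑ c ∈ range Q, ‖Phi u r a s c t‖ :=
      Finset.sum_nonneg fun c _ => norm_nonneg _
    rw [← Real.sqrt_sq h0]
    have h1 : Real.sqrt ((C ^ 2 + C' ^ 2) * S0 ^ 2 * (3 / 2 * S0)) * (Q : ℝ) ^ r =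
        Real.sqrt (((C ^ 2 + C' ^ 2) * S0 ^ 2 * (3 / 2 * S0)) * ((Q : ℝ) ^ r) ^ 2) := by
      rw [Real.sqrt_mul (x := (C ^ 2 + C' ^ 2) * S0 ^ 2 * (3 / 2 * S0)) (by positivity)
        (((Q : ℝ) ^ r) ^ 2), Real.sqrt_sq hQr.le]
    rw [h1]
    apply Real.sqrt_le_sqrt
    refine A4.trans (le_of_eq (by ring))
  refine A5.trans ?_
  nlinarith

theorem l9_conv (u : ℝ → ℝ) (hu : ContDiff ℝ (⊤ : ℕ∞) u)
    (hsupp : ∀ t, (t ≤ 1 / 10 ∨ 9 / 10 ≤ t) → u t = 0) (hint : ∫ t, u t = 0) (r a : ℝ)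
    (hr : 0 < r) :
    (∀ s c, Continuous (Phi u r a s c)) ∧
      (∀ s c, c < 2 ^ s → ∀ x, ∫ y, bern r a (x - y) * (Phi u r a s c y).re ∂tor1 =
        ub u s c x) := by
  have hconv := fun (x : ℝ) (k : ℤ) => Pool.Agent.Helper22.SB.bern_conv_exp r a hr x k
  have hbint := fun x : ℝ => Pool.Agent.Helper22.SB.bern_integrable r a hr x
  obtain ⟨C, hC0, hC⟩ := fourier_decay u hu hsupp r hr
  have hQ : ∀ s : ℕ, (0 : ℝ) < 2 ^ s := fun s => by positivity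
  have hM : ∀ s : ℕ, 0 ≤ C * ((2 : ℝ) ^ s) ^ r / 2 ^ s := fun s => by positivity
  have hsum : ∀ s : ℕ, Summable fun k => ‖cf u r a s k‖ := by
    intro s
    refine summable_of_bd (Q := 2 ^ s) (by positivity) (hM s) fun k => ?_
    have := norm_cf_le u hint a hC0 hC s k
    push_cast
    exact this
  have hterm : ∀ (s c : ℕ) (t : ℝ) (k : ℤ), ‖cf u r a s k * Complex.exp (Complex.I * k * t) *
      ec (2 ^ s : ℕ) k c‖ = ‖cf u r a s k‖ := by
    intro s c t k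
    rw [norm_mul, norm_mul, norm_ei, norm_ec, mul_one, mul_one]
  have hcont : ∀ s c, Continuous (Phi u r a s c) := by
    intro s c
    refine continuous_tsum (fun k => ?_) (hsum s) fun k t => (hterm s c t k).le
    fun_prop
  refine ⟨hcont, ?_⟩
  intro s c hc x
  have h1 : HasSum (fun k : ℤ => ∫ y, (bern r a (x - y) : ℂ) *
      (cf u r a s k * Complex.exp (Complex.I * k * y) * ec (2 ^ s : ℕ) k c) ∂tor1)
      (∫ y, ∑' k : ℤ, (bern r a (x - y) : ℂ) *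
        (cf u r a s k * Complex.exp (Complex.I * k * y) * ec (2 ^ s : ℕ) k c) ∂tor1) := by
    refine hasSum_integral_of_summable_integral_norm (fun k => ?_) ?_
    · have h2 := (hbint x).ofReal (𝕜 := ℂ)
      refine h2.mul_bdd (c := ‖cf u r a s k‖) ?_ ?_
      · exact (Continuous.aestronglyMeasurable (by fun_prop))
      · exact Filter.Eventually.of_forall fun y => (hterm s c y k).le
    · have h2 : ∀ k : ℤ, ∫ y, ‖(bern r a (x - y) : ℂ) *
          (cf u r a s k * Complex.exp (Complex.I * k * y) * ec (2 ^ s : ℕ) k c)‖ ∂tor1 =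
          (∫ y, ‖bern r a (x - y)‖ ∂tor1) * ‖cf u r a s k‖ := by
        intro k
        rw [← integral_mul_const]
        refine integral_congr_ae (Filter.Eventually.of_forall fun y => ?_)
        simp only
        rw [norm_mul, hterm, Complex.norm_real]
      simp_rw [h2]
      exact (hsum s).mul_left _
  have h3 : ∀ k : ℤ, ∫ y, (bern r a (x - y) : ℂ) *
      (cf u r a s k * Complex.exp (Complex.I * k * y) * ec (2 ^ s : ℕ) k c) ∂tor1 =
      (2 ^ s : ℂ)⁻¹ * 𝓕 (fun t => (u t : ℂ)) ((k : ℝ) / 2 ^ s) * ec (2 ^ s) k c *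
        Complex.exp (Complex.I * k * x) := by
    intro k
    have h4 : ∀ y : ℝ, (bern r a (x - y) : ℂ) *
        (cf u r a s k * Complex.exp (Complex.I * k * y) * ec (2 ^ s : ℕ) k c) =
        (bern r a (x - y) : ℂ) * Complex.exp (Complex.I * k * y) *
          (cf u r a s k * ec (2 ^ s : ℕ) k c) := fun y => by ring
    simp_rw [h4]
    rw [integral_mul_const, hconv x k, cf]
    have h5 := bmul_ne r a k
    push_cast
    field_simp
  simp_rw [h3] at h1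
  have h6 : ∀ y : ℝ, ∑' k : ℤ, (bern r a (x - y) : ℂ) *
      (cf u r a s k * Complex.exp (Complex.I * k * y) * ec (2 ^ s : ℕ) k c) =
      (bern r a (x - y) : ℂ) * Phi u r a s c y := fun y => by
    rw [tsum_mul_left, Phi]
  simp_rw [h6] at h1
  have h7 := h1.tsum_eq
  rw [← ub_eq_tsum u hu hsupp hc x] at h7
  have h8 : Integrable (fun y => (bern r a (x - y) : ℂ) * Phi u r a s c y) tor1 := by
    refine ((hbint x).ofReal (𝕜 := ℂ)).mul_bdd (c := ∑' k, ‖cf u r a s k‖)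
      (hcont s c).aestronglyMeasurable (Filter.Eventually.of_forall fun y => ?_)
    refine (norm_tsum_le_tsum_norm ?_).trans (le_of_eq (tsum_congr fun k => hterm s c y k))
    simp_rw [hterm]
    exact hsum s
  have h9 := integral_re h8
  have h10 : ∀ y : ℝ, RCLike.re ((bern r a (x - y) : ℂ) * Phi u r a s c y) =
      bern r a (x - y) * (Phi u r a s c y).re := fun y => by
    rw [RCLike.re_eq_complex_re, Complex.re_ofReal_mul]
  simp_rw [h10] at h9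
  rw [h9, ← h7]
  simp

/-! ### the main theorem -/

theorem exists_uni_one (u : ℝ → ℝ) (hu : ContDiff ℝ (⊤ : ℕ∞) u)
    (hsupp : ∀ t, (t ≤ 1 / 10 ∨ 9 / 10 ≤ t) → u t = 0) (hint : ∫ t, u t = 0) (r a : ℝ)
    (hr : 0 < r) :
    ∃ (φ : ℕ → ℕ → ℝ → ℝ) (C : ℝ), 0 < C ∧ (∀ s c, Continuous (φ s c)) ∧
      (∀ s c, c < 2 ^ s → ∀ x, ∫ y, bern r a (x - y) * φ s c y ∂tor1 = ub u s c x) ∧
      (∀ (s : ℕ) (t : ℝ), ∑ c ∈ range (2 ^ s), |φ s c t| ≤ C * (2 : ℝ) ^ (r * s)) := by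
  obtain ⟨C, hC, hl1⟩ := l9_l1 u hu hsupp hint r a hr
  obtain ⟨hcont, hconv⟩ := l9_conv u hu hsupp hint r a hr
  refine ⟨fun s c t => (Phi u r a s c t).re, C, hC,
    fun s c => Complex.continuous_re.comp (hcont s c), hconv, fun s t => ?_⟩
  refine (Finset.sum_le_sum fun c _ => Complex.abs_re_le_norm _).trans ((hl1 s t).trans ?_)
  rw [← Real.rpow_natCast, ← Real.rpow_mul (by norm_num), mul_comm (s : ℝ) r]

end Pool.Agent.Helper1.SB
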