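import Pool.Agent.Helper60.SB.Defs3

open Finset MeasureTheory
open scoped ENNReal Real Pointwise

namespace Pool.Agent.Helper1.SB

open Pool.Agent.Helper60.SB

lemma seminorm_continuous {ι : Type} [Fintype ι] (q : Seminorm ℝ (ι → ℝ)) : Continuous q := by
  classical
  have hb : ∀ y : ι → ℝ, q y ≤ (∑ i, q (Pi.single i 1)) * ‖y‖ := by
    intro y
    have h1 : y = ∑ i, y i • (Pi.single i (1 : ℝ) : ι → ℝ) := by
      funext j
      simp [Finset.sum_apply, Pi.single_apply]
    calc q y = q (∑ i, y i • (Pi.single i (1 : ℝ) : ι → ℝ)) := by rw [← h1]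
      _ ≤ ∑ i, q (y i • (Pi.single i (1 : ℝ) : ι → ℝ)) := Finset.le_sum_of_subadditive q (map_zero q).le (map_add_le_add q) _ _
      _ = ∑ i, |y i| * q (Pi.single i 1) := by
          refine Finset.sum_congr rfl fun i _ => ?_
          rw [map_smul_eq_mul, Real.norm_eq_abs]
      _ ≤ ∑ i, ‖y‖ * q (Pi.single i 1) := by
          refine Finset.sum_le_sum fun i _ => ?_
          exact mul_le_mul_of_nonneg_right (norm_le_pi_norm y i) (apply_nonneg q _)
      _ = (∑ i, q (Pi.single i 1)) * ‖y‖ := by rw [← Finset.mul_sum, mul_comm]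
  apply Seminorm.continuous_of_continuousAt_zero
  rw [ContinuousAt, map_zero]
  refine squeeze_zero (fun y => apply_nonneg q y) hb ?_
  have : Continuous fun y : ι → ℝ => (∑ i, q (Pi.single i 1)) * ‖y‖ := by fun_prop
  have h := this.tendsto 0
  simpa using h

lemma sep_card {ι : Type} [Fintype ι] (q : Seminorm ℝ (ι → ℝ)) (hq : ∀ y i, |y i| ≤ q y)
    (ρ ε : ℝ) (hρ : 0 ≤ ρ) (hε : 0 < ε) (S : Finset (ι → ℝ)) (hS : ∀ x ∈ S, q x ≤ ρ)
    (hsep : ∀ x ∈ S, ∀ x' ∈ S, x ≠ x' → ε < q (x - x')) :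
    (S.card : ℝ) ≤ (1 + 2 * ρ / ε) ^ Fintype.card ι := by
  have hcont := seminorm_continuous q
  have hopen : ∀ (x : ι → ℝ) (r : ℝ), IsOpen (q.ball x r) := by
    intro x r
    have : q.ball x r = (fun y => q (y - x)) ⁻¹' Set.Iio r := by
      ext y
      simp [Seminorm.mem_ball]
    rw [this]
    exact isOpen_Iio.preimage (hcont.comp (continuous_id.sub continuous_const))
  have hpos : 0 < volume (q.ball 0 1) := by
    exact (hopen 0 1).measure_pos volume ⟨0, by simp [Seminorm.mem_ball]⟩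
  have hfin : volume (q.ball 0 1) < ⊤ := by
    refine lt_of_le_of_lt (measure_mono ?_) (measure_closedBall_lt_top (x := (0 : ι → ℝ)) (r := 1))
    intro y hy
    rw [Seminorm.mem_ball, sub_zero] at hy
    rw [mem_closedBall_zero_iff, pi_norm_le_iff_of_nonneg zero_le_one]
    intro i
    rw [Real.norm_eq_abs]
    exact (hq y i).trans hy.le
  have hscale : ∀ r : ℝ, 0 < r → volume (q.ball 0 r) = ENNReal.ofReal (r ^ Fintype.card ι) * volume (q.ball 0 1) := by
    intro r hr
    have h1 : q.ball 0 r = r • q.ball 0 1 := by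
      rw [Seminorm.smul_ball_zero hr.ne', Real.norm_eq_abs, abs_of_pos hr, mul_one]
    rw [h1, Measure.addHaar_smul, Module.finrank_fintype_fun_eq_card, abs_of_pos (by positivity)]
  have htrans : ∀ (x : ι → ℝ) (r : ℝ), volume (q.ball x r) = volume (q.ball 0 r) := by
    intro x r
    have h1 : q.ball x r = x +ᵥ q.ball 0 r := by
      rw [Seminorm.vadd_ball, vadd_eq_add, add_zero]
    rw [h1]
    exact measure_vadd volume x _
  have hdisj : Set.PairwiseDisjoint (S : Set (ι → ℝ)) (fun x => q.ball x (ε / 2)) := by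
    intro x hx x' hx' hne
    rw [Function.onFun, Set.disjoint_left]
    intro z hz hz'
    rw [Seminorm.mem_ball] at hz hz'
    have h1 := hsep x hx x' hx' hne
    have h2 : q (x - x') ≤ q (x - z) + q (z - x') := by
      have : x - x' = (x - z) + (z - x') := by abel
      rw [this]
      exact map_add_le_add q _ _
    have h3 : q (x - z) = q (z - x) := map_sub_rev q x z
    linarith
  have hsub : (⋃ x ∈ S, q.ball x (ε / 2)) ⊆ q.ball 0 (ρ + ε / 2) := by
    intro z hz
    simp only [Set.mem_iUnion, exists_prop] at hz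
    obtain ⟨x, hx, hz⟩ := hz
    rw [Seminorm.mem_ball] at hz ⊢
    rw [sub_zero]
    have h1 : q z ≤ q (z - x) + q x := by
      have : z = (z - x) + x := by abel
      conv_lhs => rw [this]
      exact map_add_le_add q _ _
    linarith [hS x hx]
  have hmeas : (S.card : ℝ≥0∞) * volume (q.ball 0 (ε / 2)) ≤ volume (q.ball 0 (ρ + ε / 2)) := by
    calc (S.card : ℝ≥0∞) * volume (q.ball 0 (ε / 2)) = ∑ x ∈ S, volume (q.ball x (ε / 2)) := by
          simp only [htrans, Finset.sum_const, nsmul_eq_mul]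
      _ = volume (⋃ x ∈ S, q.ball x (ε / 2)) :=
          (measure_biUnion_finset hdisj (fun x _ => (hopen x _).measurableSet)).symm
      _ ≤ volume (q.ball 0 (ρ + ε / 2)) := measure_mono hsub
  rw [hscale (ε / 2) (by positivity), hscale (ρ + ε / 2) (by positivity), ← mul_assoc] at hmeas
  have h4 : (S.card : ℝ≥0∞) * ENNReal.ofReal ((ε / 2) ^ Fintype.card ι) ≤
      ENNReal.ofReal ((ρ + ε / 2) ^ Fintype.card ι) :=
    (ENNReal.mul_le_mul_iff_left hpos.ne' hfin.ne).mp hmeas
  have h5 : (S.card : ℝ) * (ε / 2) ^ Fintype.card ι ≤ (ρ + ε / 2) ^ Fintype.card ι := by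
    rw [← ENNReal.ofReal_natCast, ← ENNReal.ofReal_mul (Nat.cast_nonneg _)] at h4
    exact (ENNReal.ofReal_le_ofReal_iff (by positivity)).mp h4
  have h6 : (1 + 2 * ρ / ε) ^ Fintype.card ι = (ρ + ε / 2) ^ Fintype.card ι / (ε / 2) ^ Fintype.card ι := by
    rw [← div_pow]
    congr 1
    field_simp
    ring
  rw [h6, le_div_iff₀ (by positivity)]
  exact h5

theorem volume_cov {ι : Type} [Fintype ι] (q : Seminorm ℝ (ι → ℝ)) (hq : ∀ y i, |y i| ≤ q y)
    (ρ ε : ℝ) (hρ : 0 ≤ ρ) (hε : 0 < ε) :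
    Cov {y : ι → ℝ | q y ≤ ρ} (fun a y => q (a - y) ≤ ε)
      (Fintype.card ι * Real.log (1 + 2 * ρ / ε)) := by
  classical
  have hbase : 0 < 1 + 2 * ρ / ε := by positivity
  have hexp : Real.exp (Fintype.card ι * Real.log (1 + 2 * ρ / ε)) =
      (1 + 2 * ρ / ε) ^ Fintype.card ι := by
    rw [mul_comm, Real.exp_mul, Real.exp_log hbase, Real.rpow_natCast]
  -- admissible cardinalities
  set A : Set ℕ := {n | ∃ S : Finset (ι → ℝ), S.card = n ∧ (∀ x ∈ S, q x ≤ ρ) ∧
    ∀ x ∈ S, ∀ x' ∈ S, x ≠ x' → ε < q (x - x')} with hA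
  have hbdd : BddAbove A := by
    refine ⟨⌊(1 + 2 * ρ / ε) ^ Fintype.card ι⌋₊, ?_⟩
    rintro n ⟨S, rfl, h1, h2⟩
    exact Nat.le_floor (sep_card q hq ρ ε hρ hε S h1 h2)
  have hne : A.Nonempty := ⟨0, ∅, rfl, by simp, by simp⟩
  obtain ⟨S, hcard, hS1, hS2⟩ := Nat.sSup_mem hne hbdd
  refine ⟨S, ?_, ?_⟩
  · rw [hexp]
    exact sep_card q hq ρ ε hρ hε S hS1 hS2
  · intro a ha
    by_contra hcon
    push Not at hcon
    have haS : a ∉ S := by
      intro h
      have := hcon a h
      rw [sub_self, map_zero] at this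
      linarith
    have hmem : S.card + 1 ∈ A := by
      refine ⟨insert a S, Finset.card_insert_of_notMem haS, ?_, ?_⟩
      · intro x hx
        rcases Finset.mem_insert.mp hx with rfl | hx
        · exact ha
        · exact hS1 x hx
      · intro x hx x' hx' hne'
        rcases Finset.mem_insert.mp hx with h1 | h1 <;> rcases Finset.mem_insert.mp hx' with h2 | h2
        · exact absurd (h1.trans h2.symm) hne'
        · rw [h1]
          exact hcon x' h2
        · rw [h2, map_sub_rev]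
          exact hcon x h1
        · exact hS2 x h1 x' h2 hne'
    have := le_csSup hbdd hmem
    omega

end Pool.Agent.Helper1.SB
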